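import Pool.Agent.T2h50.TJ.Key

/-! The colouring is computable; the visible parts are computable from the double jump. -/

namespace Pool.Agent.T2h50.TJ

open Filter Pool.Agent.H645R2.HT Pool.Agent.TH747.HT Pool.Agent.TH747.HS
  Pool.Agent.Helper446 Pool.Agent.Helper446.RE Pool.Agent.N640.HU Pool.Agent.Helper446.Oracle

section comp

variable {α : Type*} [Primcodable α]

@[fun_prop] theorem c_tail {f : α → List ℕ} (hf : Computable f) : Computable fun a => (f a).tail :=
  Primrec.list_tail.to_comp.comp hf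

@[fun_prop] theorem c_drop {f : α → List ℕ} {g : α → ℕ} (hg : Computable g) (hf : Computable f) :
    Computable fun a => (f a).drop (g a) :=
  (Primrec.list_drop.to_comp).comp hg hf

@[fun_prop] theorem c_reverse {f : α → List ℕ} (hf : Computable f) :
    Computable fun a => (f a).reverse :=
  Computable.list_reverse.comp hf

theorem c_gl {y : α → ℕ → ℕ} (hy : Computable fun p : α × ℕ => y p.1 p.2) {f : α → List ℕ}
    (hf : Computable f) : Computable fun a => gl (mn (y a)) (f a) := by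
  have h : Computable fun a => ((f a).tail.foldl (fun (s : ℕ × List ℕ) x =>
      (x, s.2 ++ [mn (y a) s.1 x])) ((f a).headD 0, ([] : List ℕ))).2 := by
    refine Computable.snd.comp (RE.list_foldl (f := fun a => (f a).tail)
      (g := fun a => ((f a).headD 0, ([] : List ℕ)))
      (h := fun (a : α) (p : (ℕ × List ℕ) × ℕ) => (p.2, p.1.2 ++ [mn (y a) p.1.1 p.2])) ?_ ?_ ?_)
    · fun_prop
    · fun_prop
    · unfold Computable₂
      have h1 : Computable fun x : α × ((ℕ × List ℕ) × ℕ) => mn (y x.1) x.2.1.1 x.2.2 :=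
        c_mn (y := fun (x : α × ((ℕ × List ℕ) × ℕ)) t => y x.1 t)
          (hy.comp (g := fun p : (α × ((ℕ × List ℕ) × ℕ)) × ℕ => (p.1.1, p.2)) (by fun_prop))
          (by fun_prop) (by fun_prop)
      fun_prop
  refine h.of_eq fun a => ?_
  rw [gl_foldl]
  cases hL : f a with
  | nil => simp [gl]
  | cons b l => simp

theorem c_word' {a : α → ℕ} {r : α → List ℕ} (ha : Computable a) (hr : Computable r) :
    Computable fun x => gl (mn (Y (a x) ((r x).headD 0))) (r x) := by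
  refine c_gl (y := fun (x : α) t => Y (a x) ((r x).headD 0) t) ?_ hr
  exact c_Y (by fun_prop) (by fun_prop) (by fun_prop)

theorem c_rv {f : α → List ℕ} (hf : Computable f) : Computable fun a => rv [] (f a) := by
  have h : Computable fun a => (f a).foldl (fun (s : List ℕ) x =>
      x :: s.filter (fun z => decide (z < x))) [] := by
    refine RE.list_foldl (h := fun (_ : α) (p : List ℕ × ℕ) =>
      p.2 :: p.1.filter (fun z => decide (z < p.2))) hf (Computable.const _) ?_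
    unfold Computable₂
    exact ccons (by fun_prop) (c_filter (by fun_prop) (by fun_prop))
  exact h.of_eq fun a => rv_foldl _ _

theorem foldl_val (l : List ℕ) : l.reverse.foldl (fun (s : List ℕ × ℕ) a =>
    (a :: s.1, cl [] (gl (mn (Y a (s.1.headD 0))) s.1) + s.2)) ([], 0) = (l, Sf val l []) := by
  rw [List.foldl_reverse]
  induction l with
  | nil => rfl
  | cons a l ih =>
    rw [List.foldr_cons, ih]
    simp only [Sf, List.append_nil, val]

theorem c_c3 : Computable c3 := by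
  have h : Computable fun n : ℕ => ((L n).reverse.foldl (fun (s : List ℕ × ℕ) a =>
      (a :: s.1, cl [] (gl (mn (Y a (s.1.headD 0))) s.1) + s.2)) (([] : List ℕ), 0)).2 := by
    refine Computable.snd.comp (RE.list_foldl (f := fun n : ℕ => (L n).reverse)
      (g := fun _ => (([] : List ℕ), 0))
      (h := fun (_ : ℕ) (p : (List ℕ × ℕ) × ℕ) =>
        (p.2 :: p.1.1, cl [] (gl (mn (Y p.2 (p.1.1.headD 0))) p.1.1) + p.1.2)) ?_ ?_ ?_)
    · fun_prop
    · fun_prop
    · unfold Computable₂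
      have h1 : Computable fun x : ℕ × ((List ℕ × ℕ) × ℕ) =>
          cl [] (gl (mn (Y x.2.2 (x.2.1.1.headD 0))) x.2.1.1) :=
        c_cl (c_word' (by fun_prop) (by fun_prop))
      fun_prop
  have h2 : Computable fun n : ℕ => ((L n).reverse.foldl (fun (s : List ℕ × ℕ) a =>
      (a :: s.1, cl [] (gl (mn (Y a (s.1.headD 0))) s.1) + s.2)) (([] : List ℕ), 0)).2 % 3 :=
    c_mod h (by fun_prop)
  refine h2.of_eq fun n => ?_
  rw [foldl_val]
  rfl

end comp

/-- `X` computes the double jump. -/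
def DJ (X : Set ℕ) : Prop := ∀ R : ℕ → ℕ → ℕ → Bool,
  Computable (fun q : ℕ × ℕ × ℕ => R q.1 q.2.1 q.2.2) →
    REIn X (fun n => ∃ a, ∀ b, R n a b = true) ∧ REIn X (fun n => ¬ ∃ a, ∀ b, R n a b = true)

section rein

variable {X : Set ℕ} {α : Type*} [Primcodable α]

theorem DJ.sig (h : DJ X) {R : α → ℕ → ℕ → Bool}
    (hR : Computable fun q : α × ℕ × ℕ => R q.1 q.2.1 q.2.2) :
    REIn X (fun x => ∃ a, ∀ b, R x a b = true) ∧
      REIn X (fun x => ¬ ∃ a, ∀ b, R x a b = true) := by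
  have h1 := h (fun n a b => Option.casesOn (motive := fun _ => Bool)
    (Encodable.decode (α := α) n) false (fun x => R x a b)) (by
      refine Computable.option_casesOn (o := fun q : ℕ × ℕ × ℕ => Encodable.decode (α := α) q.1)
        (f := fun _ => false) (g := fun q x => R x q.2.1 q.2.2) (by fun_prop) (by fun_prop) ?_
      unfold Computable₂
      exact hR.comp (g := fun x : (ℕ × ℕ × ℕ) × α => (x.2, x.1.2.1, x.1.2.2)) (by fun_prop))
  constructor
  · refine (h1.1.comp (f := fun x : α => Encodable.encode x) (by fun_prop)).of_eq fun x => ?_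
    simp only [Encodable.encodek]
  · refine (h1.2.comp (f := fun x : α => Encodable.encode x) (by fun_prop)).of_eq fun x => ?_
    simp only [Encodable.encodek]

theorem DJ.pi1 (h : DJ X) {R : α → ℕ → Bool} (hR : Computable fun q : α × ℕ => R q.1 q.2) :
    REIn X (fun x => ∀ b, R x b = true) := by
  have h1 := (h.sig (R := fun x _ b => R x b)
    (hR.comp (g := fun q : α × ℕ × ℕ => (q.1, q.2.2)) (by fun_prop))).1
  exact h1.of_eq fun x => ⟨fun ⟨_, h⟩ => h, fun h => ⟨0, h⟩⟩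

theorem DJ.pi2 (h : DJ X) {R : α → ℕ → ℕ → Bool}
    (hR : Computable fun q : α × ℕ × ℕ => R q.1 q.2.1 q.2.2) :
    REIn X (fun x => ∀ a, ∃ b, R x a b = true) ∧
      REIn X (fun x => ¬ ∀ a, ∃ b, R x a b = true) := by
  have h1 := h.sig (R := fun x a b => !(R x a b)) (cnot hR)
  constructor
  · refine h1.2.of_eq fun x => ?_
    push Not
    simp
  · refine h1.1.of_eq fun x => ?_
    push Not
    simp

/-- The facts `Inf z v`. -/
theorem DJ.inf (h : DJ X) {z v : α → ℕ} (hz : Computable z) (hv : Computable v) :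
    REIn X (fun x => Inf (z x) (v x)) ∧ REIn X (fun x => ¬ Inf (z x) (v x)) := by
  refine h.pi2 (R := fun x c s => W0 s (ix (z x) (v x) c)) ?_
  have h1 : Computable fun q : α × ℕ × ℕ => ix (z q.1) (v q.1) q.2.1 :=
    c_ix (by fun_prop) (by fun_prop) (by fun_prop)
  exact c_W0.comp (g := fun q : α × ℕ × ℕ => (q.2.2, ix (z q.1) (v q.1) q.2.1)) (by fun_prop)

theorem Gm_unique {y : ℕ → ℕ} {m g g' : ℕ} (h : Gm y m g) (h' : Gm y m g') : g = g' := by
  obtain ⟨h1, t, h2, h3⟩ := h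
  obtain ⟨h1', t', h2', h3'⟩ := h'
  have := h1 t' h2'
  have := h1' t h2
  omega

theorem gm_bool {y : ℕ → ℕ} {m g : ℕ} : ((∀ t, (!(decide (m < t) && decide (y t < g))) = true) ∧
    ∃ t, m < t ∧ y t = g) ↔ Gm y m g := by
  unfold Gm
  have h : ∀ t, (!(decide (m < t) && decide (y t < g))) = true ↔ (m < t → g ≤ y t) := by
    intro t
    rw [Bool.not_eq_true', Bool.and_eq_false_iff, decide_eq_false_iff_not,
      decide_eq_false_iff_not]
    constructor
    · rintro (h | h) h'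
      · exact absurd h' h
      · omega
    · intro h
      by_cases h' : m < t
      · exact Or.inr (by have := h h'; omega)
      · exact Or.inl h'
  rw [forall_congr' h]

theorem vis_bool {y : ℕ → ℕ} {g : ℕ} : (∀ N, ∃ t, (decide (N < t) && decide (y t = g)) = true) ↔
    ∀ N, ∃ t, N < t ∧ y t = g := by
  refine forall_congr' fun N => exists_congr fun t => ?_
  rw [Bool.and_eq_true, decide_eq_true_eq, decide_eq_true_eq]

theorem kF_iff {a : ℕ} {r : List ℕ} {k : ℕ} : kF (a :: r) = k ↔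
    ∃ g, ((∀ t, (!(decide (r.getLastD 0 < t) && decide (Y a (r.headD 0) t < g))) = true) ∧
      ∃ t, r.getLastD 0 < t ∧ Y a (r.headD 0) t = g) ∧
      (((∀ N, ∃ t, (decide (N < t) && decide (Y a (r.headD 0) t = g)) = true) ∧
        cl [] (gl (mn (Y a (r.headD 0))) r) +
          (bif decide (g ∈ rv [] (gl (mn (Y a (r.headD 0))) r)) then 0 else 1) + 2 = k) ∨
      ((¬ ∀ N, ∃ t, (decide (N < t) && decide (Y a (r.headD 0) t = g)) = true) ∧
        cl [] (gl (mn (Y a (r.headD 0))) r) +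
          (bif decide (g ∈ rv [] (gl (mn (Y a (r.headD 0))) r)) then 0 else 1) = k)) := by
  have e : kF (a :: r) = kv (Y a (r.headD 0)) r (gm (Y a (r.headD 0)) r) := rfl
  have hspec := gm_spec (Y a (r.headD 0)) r
  rw [e]
  generalize gm (Y a (r.headD 0)) r = g0 at hspec ⊢
  generalize Y a (r.headD 0) = y at hspec ⊢
  have hc : ∀ g, (bif decide (g ∈ rv [] (gl (mn y) r)) then 0 else 1) =
      if g ∈ rv [] (gl (mn y) r) then 0 else 1 := by
    intro g
    by_cases h : g ∈ rv [] (gl (mn y) r)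
    · rw [if_pos h, decide_eq_true h, cond_true]
    · rw [if_neg h, decide_eq_false h, cond_false]
  simp only [gm_bool, vis_bool, hc]
  unfold kv
  constructor
  · intro h
    refine ⟨g0, hspec, ?_⟩
    by_cases h1 : ∀ N, ∃ t, N < t ∧ y t = g0
    · rw [if_pos h1] at h
      exact Or.inl ⟨h1, h⟩
    · rw [if_neg h1] at h
      exact Or.inr ⟨h1, h⟩
  · rintro ⟨g, h1, h2⟩
    have h3 := Gm_unique hspec h1
    subst h3
    rcases h2 with ⟨h4, h5⟩ | ⟨h4, h5⟩
    · rw [if_pos h4]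
      exact h5
    · rw [if_neg h4]
      exact h5

theorem DJ.kF (h : DJ X) {a k : α → ℕ} {r : α → List ℕ} (ha : Computable a)
    (hr : Computable r) (hk : Computable k) : REIn X fun x => kF (a x :: r x) = k x := by
  have hY : Computable fun q : α × ℕ => Y (a q.1) ((r q.1).headD 0) q.2 :=
    c_Y (by fun_prop) (by fun_prop) (by fun_prop)
  have hw : Computable fun x => gl (mn (Y (a x) ((r x).headD 0))) (r x) := c_word' ha hr
  have key : REIn X fun x => ∃ g, ((∀ t, (!(decide ((r x).getLastD 0 < t) &&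
      decide (Y (a x) ((r x).headD 0) t < g))) = true) ∧
      ∃ t, (r x).getLastD 0 < t ∧ Y (a x) ((r x).headD 0) t = g) ∧
      (((∀ N, ∃ t, (decide (N < t) && decide (Y (a x) ((r x).headD 0) t = g)) = true) ∧
        cl [] (gl (mn (Y (a x) ((r x).headD 0))) (r x)) +
          (bif decide (g ∈ rv [] (gl (mn (Y (a x) ((r x).headD 0))) (r x))) then 0 else 1) + 2 =
          k x) ∨
      ((¬ ∀ N, ∃ t, (decide (N < t) && decide (Y (a x) ((r x).headD 0) t = g)) = true) ∧
        cl [] (gl (mn (Y (a x) ((r x).headD 0))) (r x)) +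
          (bif decide (g ∈ rv [] (gl (mn (Y (a x) ((r x).headD 0))) (r x))) then 0 else 1) =
          k x)) := by
    refine REIn.ex (β := ℕ) (S := fun (x : α) (g : ℕ) => ((∀ t, (!(decide ((r x).getLastD 0 < t) &&
      decide (Y (a x) ((r x).headD 0) t < g))) = true) ∧
      ∃ t, (r x).getLastD 0 < t ∧ Y (a x) ((r x).headD 0) t = g) ∧
      (((∀ N, ∃ t, (decide (N < t) && decide (Y (a x) ((r x).headD 0) t = g)) = true) ∧
        cl [] (gl (mn (Y (a x) ((r x).headD 0))) (r x)) +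
          (bif decide (g ∈ rv [] (gl (mn (Y (a x) ((r x).headD 0))) (r x))) then 0 else 1) + 2 =
          k x) ∨
      ((¬ ∀ N, ∃ t, (decide (N < t) && decide (Y (a x) ((r x).headD 0) t = g)) = true) ∧
        cl [] (gl (mn (Y (a x) ((r x).headD 0))) (r x)) +
          (bif decide (g ∈ rv [] (gl (mn (Y (a x) ((r x).headD 0))) (r x))) then 0 else 1) =
          k x))) ?_
    have hv : Computable fun q : (α × ℕ) × ℕ × ℕ => decide (q.2.1 < q.2.2) &&
        decide (Y (a q.1.1) ((r q.1.1).headD 0) q.2.2 = q.1.2) := by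
      refine cand (c_dlt (by fun_prop) (by fun_prop)) (c_deq ?_ (by fun_prop))
      exact hY.comp (g := fun q : (α × ℕ) × ℕ × ℕ => (q.1.1, q.2.2)) (by fun_prop)
    have hv2 := h.pi2 (R := fun (x : α × ℕ) N t => decide (N < t) &&
        decide (Y (a x.1) ((r x.1).headD 0) t = x.2)) hv
    have hcl : Computable fun x : α × ℕ => cl [] (gl (mn (Y (a x.1) ((r x.1).headD 0)))
        (r x.1)) := (c_cl hw).comp Computable.fst
    have hrv : Computable fun x : α × ℕ => decide (x.2 ∈ rv [] (gl (mn (Y (a x.1)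
        ((r x.1).headD 0))) (r x.1))) := c_mem (by fun_prop) ((c_rv hw).comp Computable.fst)
    have hval : Computable fun x : α × ℕ => cl [] (gl (mn (Y (a x.1) ((r x.1).headD 0)))
        (r x.1)) + (bif decide (x.2 ∈ rv [] (gl (mn (Y (a x.1)
        ((r x.1).headD 0))) (r x.1))) then 0 else 1) := by fun_prop
    refine REIn.and (REIn.and ?_ (REIn.of_re ?_)) (REIn.or (REIn.and hv2.1 (REIn.of_re ?_))
      (REIn.and hv2.2 (REIn.of_re ?_)))
    · refine h.pi1 (R := fun (x : α × ℕ) t => !(decide ((r x.1).getLastD 0 < t) &&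
        decide (Y (a x.1) ((r x.1).headD 0) t < x.2))) ?_
      refine cnot (cand (c_dlt (by fun_prop) (by fun_prop)) (c_dlt ?_ (by fun_prop)))
      exact hY.comp (g := fun q : (α × ℕ) × ℕ => (q.1.1, q.2)) (by fun_prop)
    · refine RE.exN (p := fun (x : α × ℕ) t => (r x.1).getLastD 0 < t ∧
        Y (a x.1) ((r x.1).headD 0) t = x.2) ?_
      refine RE.and (RE.lt (by fun_prop) (by fun_prop)) (RE.eq ?_ (by fun_prop))
      exact hY.comp (g := fun q : (α × ℕ) × ℕ => (q.1.1, q.2)) (by fun_prop)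
    · exact RE.eq (by fun_prop) (by fun_prop)
    · exact RE.eq (by fun_prop) (by fun_prop)
  exact key.of_eq fun x => kF_iff.symm

/-- Sums over suffixes, in terms of lists of values. -/
theorem Sf_iff (F : List ℕ → ℕ) (u v : List ℕ) (k : ℕ) : Sf F u v = k ↔
    ∃ ks : List ℕ, (ks.length = u.length ∧ ks.sum = k) ∧
      ∀ i < u.length, F (((u.drop i).headD 0) :: (u.drop (i + 1) ++ v)) = (ks.drop i).headD 0 := by
  induction u generalizing k with
  | nil =>
    constructor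
    · intro h
      exact ⟨[], by simpa [Sf] using h, fun i hi => absurd hi (by simp)⟩
    · rintro ⟨ks, ⟨h1, h2⟩, -⟩
      rw [List.length_nil, List.length_eq_zero_iff] at h1
      subst h1
      simpa [Sf] using h2
  | cons a u ih =>
    constructor
    · intro h
      simp only [Sf] at h
      obtain ⟨ks, ⟨h1, h2⟩, h3⟩ := (ih (Sf F u v)).1 rfl
      refine ⟨F (a :: (u ++ v)) :: ks, ⟨by simp [h1], by simp [h2, h]⟩, ?_⟩
      intro i hi
      cases i with
      | zero => simp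
      | succ i =>
        simp only [List.drop_succ_cons]
        exact h3 i (by simpa using hi)
    · rintro ⟨ks, ⟨h1, h2⟩, h3⟩
      cases ks with
      | nil => simp at h1
      | cons x ks =>
        simp only [Sf]
        have h4 := h3 0 (by simp)
        simp only [List.drop_zero, List.headD_cons, zero_add, List.drop_succ_cons] at h4
        have h5 := (ih ks.sum).2 ⟨ks, ⟨by simpa using h1, rfl⟩, fun i hi => by
          have := h3 (i + 1) (by simpa using hi)
          simpa using this⟩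
        rw [h4, h5]
        simpa using h2

theorem DJ.K (h : DJ X) {f g k : α → ℕ} (hf : Computable f) (hg : Computable g)
    (hk : Computable k) : REIn X fun x => K (f x) (g x) = k x := by
  have key : REIn X fun x => ∃ ks : List ℕ, (ks.length = (L (f x)).length ∧ ks.sum = k x) ∧
      ∀ i < (L (f x)).length, TJ.kF ((((L (f x)).drop i).headD 0) ::
        ((L (f x)).drop (i + 1) ++ L (g x))) = (ks.drop i).headD 0 := by
    refine REIn.ex (S := fun (x : α) (ks : List ℕ) =>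
      (ks.length = (L (f x)).length ∧ ks.sum = k x) ∧
      ∀ i < (L (f x)).length, TJ.kF ((((L (f x)).drop i).headD 0) ::
        ((L (f x)).drop (i + 1) ++ L (g x))) = (ks.drop i).headD 0) ?_
    refine REIn.and (REIn.of_re (RE.and (RE.eq (by fun_prop) (by fun_prop))
      (RE.eq (c_sum (by fun_prop)) (by fun_prop)))) ?_
    refine REIn.all_lt (S := fun (x : α × List ℕ) (i : ℕ) =>
      TJ.kF ((((L (f x.1)).drop i).headD 0) :: ((L (f x.1)).drop (i + 1) ++ L (g x.1))) =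
        (x.2.drop i).headD 0) ?_ (by fun_prop)
    exact h.kF (by fun_prop) (by fun_prop) (by fun_prop)
  exact key.of_eq fun x => (Sf_iff _ _ _ _).symm

end rein

variable {U : Ultrafilter ℕ} {P : ℕ → ℕ → Prop} {X : Set ℕ}

/-- Settled pairs are enumerated by the solution. -/
theorem Good3.settling (hG : Good3 U P) (hD : DJ X) (hP : REIn X fun x : ℕ × ℕ => P x.1 x.2) :
    ∃ S : ℕ → ℕ → Prop, (REIn X fun x : ℕ × ℕ => S x.1 x.2) ∧ (∀ a b, S a b → ¬ Sh a b) ∧
      ∀ n, ∃ a b, n ≤ a ∧ S a b := by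
  by_cases hA : ∀ n, ∃ h h' h'', n ≤ mu h ∧ P h h' ∧ P h h'' ∧ la h' ≤ la h'' ∧
      K h h' % 3 ≠ K h h'' % 3
  · refine ⟨fun a b => ∃ h, ∃ h', ∃ h'', ∃ k, ∃ k', (mu h = a ∧ la h'' = b ∧ la h' ≤ la h'' ∧
      k % 3 ≠ k' % 3) ∧ (P h h' ∧ P h h'') ∧ K h h' = k ∧ K h h'' = k', ?_, ?_, ?_⟩
    · refine REIn.ex (S := fun (x : ℕ × ℕ) h => ∃ h', ∃ h'', ∃ k, ∃ k',
        (mu h = x.1 ∧ la h'' = x.2 ∧ la h' ≤ la h'' ∧
        k % 3 ≠ k' % 3) ∧ (P h h' ∧ P h h'') ∧ K h h' = k ∧ K h h'' = k') ?_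
      refine REIn.ex (S := fun (x : (ℕ × ℕ) × ℕ) h' => ∃ h'', ∃ k, ∃ k',
        (mu x.2 = x.1.1 ∧ la h'' = x.1.2 ∧ la h' ≤ la h'' ∧
        k % 3 ≠ k' % 3) ∧ (P x.2 h' ∧ P x.2 h'') ∧ K x.2 h' = k ∧ K x.2 h'' = k') ?_
      refine REIn.ex (S := fun (x : ((ℕ × ℕ) × ℕ) × ℕ) h'' => ∃ k, ∃ k',
        (mu x.1.2 = x.1.1.1 ∧ la h'' = x.1.1.2 ∧ la x.2 ≤ la h'' ∧
        k % 3 ≠ k' % 3) ∧ (P x.1.2 x.2 ∧ P x.1.2 h'') ∧ K x.1.2 x.2 = k ∧ K x.1.2 h'' = k') ?_
      refine REIn.ex (S := fun (x : (((ℕ × ℕ) × ℕ) × ℕ) × ℕ) k => ∃ k',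
        (mu x.1.1.2 = x.1.1.1.1 ∧ la x.2 = x.1.1.1.2 ∧ la x.1.2 ≤ la x.2 ∧
        k % 3 ≠ k' % 3) ∧ (P x.1.1.2 x.1.2 ∧ P x.1.1.2 x.2) ∧ K x.1.1.2 x.1.2 = k ∧
          K x.1.1.2 x.2 = k') ?_
      refine REIn.ex (S := fun (x : ((((ℕ × ℕ) × ℕ) × ℕ) × ℕ) × ℕ) k' =>
        (mu x.1.1.1.2 = x.1.1.1.1.1 ∧ la x.1.2 = x.1.1.1.1.2 ∧ la x.1.1.2 ≤ la x.1.2 ∧
        x.2 % 3 ≠ k' % 3) ∧ (P x.1.1.1.2 x.1.1.2 ∧ P x.1.1.1.2 x.1.2) ∧
          K x.1.1.1.2 x.1.1.2 = x.2 ∧ K x.1.1.1.2 x.1.2 = k') ?_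
      refine REIn.and (REIn.of_re ?_) (REIn.and (REIn.and ?_ ?_) (REIn.and ?_ ?_))
      · exact RE.and (RE.eq (by fun_prop) (by fun_prop)) (RE.and (RE.eq (by fun_prop)
          (by fun_prop)) (RE.and (RE.le (by fun_prop) (by fun_prop))
            (RE.ne (c_mod (by fun_prop) (by fun_prop)) (c_mod (by fun_prop) (by fun_prop)))))
      · exact hP.comp (f := fun x : (((((ℕ × ℕ) × ℕ) × ℕ) × ℕ) × ℕ) × ℕ =>
          (x.1.1.1.1.2, x.1.1.1.2)) (by fun_prop)
      · exact hP.comp (f := fun x : (((((ℕ × ℕ) × ℕ) × ℕ) × ℕ) × ℕ) × ℕ =>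
          (x.1.1.1.1.2, x.1.1.2)) (by fun_prop)
      · exact hD.K (by fun_prop) (by fun_prop) (by fun_prop)
      · exact hD.K (by fun_prop) (by fun_prop) (by fun_prop)
    · rintro a b ⟨h, h', h'', k, k', ⟨rfl, rfl, h1, h2⟩, ⟨h3, h4⟩, rfl, rfl⟩
      exact hG.settled h3 h4 h1 h2
    · intro n
      obtain ⟨h, h', h'', h1, h2, h3, h4, h5⟩ := hA n
      exact ⟨mu h, la h'', h1, h, h', h'', _, _, ⟨rfl, rfl, h4, h5⟩, ⟨h2, h3⟩, rfl, rfl⟩
  · push Not at hA
    obtain ⟨n0, hn0⟩ := hA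
    refine ⟨fun a b => ∃ h, ∃ h', (mu h = a ∧ la h' = b ∧ n0 ≤ mu h) ∧ P h h', ?_, ?_, ?_⟩
    · refine REIn.ex (S := fun (x : ℕ × ℕ) h => ∃ h',
        (mu h = x.1 ∧ la h' = x.2 ∧ n0 ≤ mu h) ∧ P h h') ?_
      refine REIn.ex (S := fun (x : (ℕ × ℕ) × ℕ) h' =>
        (mu x.2 = x.1.1 ∧ la h' = x.1.2 ∧ n0 ≤ mu x.2) ∧ P x.2 h') ?_
      refine REIn.and (REIn.of_re ?_) ?_
      · exact RE.and (RE.eq (by fun_prop) (by fun_prop)) (RE.and (RE.eq (by fun_prop)
          (by fun_prop)) (RE.le (by fun_prop) (by fun_prop)))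
      · exact hP.comp (f := fun x : ((ℕ × ℕ) × ℕ) × ℕ => (x.1.2, x.2)) (by fun_prop)
    · rintro a b ⟨h, h', ⟨rfl, rfl, h1⟩, h2⟩
      refine hG.settled' h2 fun h'' h3 => ?_
      rcases le_total (la h') (la h'') with h4 | h4
      · exact (hn0 h h' h'' h1 h2 h3 h4).symm
      · exact hn0 h h'' h' h1 h3 h2 h4
    · intro n
      obtain ⟨h, h', h1, h2⟩ := hG.rich (max n n0)
      exact ⟨mu h, la h', by omega, h, h', ⟨rfl, rfl, by omega⟩, h2⟩

/-- Solutions enumerate every `Σ⁰₃` set and its complement. -/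
theorem Good3.main (hG : Good3 U P) (hD : DJ X) (hP : REIn X fun x : ℕ × ℕ => P x.1 x.2)
    {R : ℕ → ℕ → ℕ → ℕ → Bool}
    (hR : Computable fun q : ℕ × ℕ × ℕ × ℕ => R q.1 q.2.1 q.2.2.1 q.2.2.2) :
    REIn X (fun n => ∃ a, ∀ b, ∃ t, R n a b t = true) ∧
      REIn X (fun n => ¬ ∃ a, ∀ b, ∃ t, R n a b t = true) := by
  have h1 : REPred fun w : ℕ => ∃ t, R w.unpair.1 w.unpair.2.unpair.1 w.unpair.2.unpair.2 t =
      true := by
    refine RE.exN (p := fun (w : ℕ) t =>
      R w.unpair.1 w.unpair.2.unpair.1 w.unpair.2.unpair.2 t = true) ?_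
    refine RE.of_bool ?_
    exact hR.comp (g := fun x : ℕ × ℕ =>
      (x.1.unpair.1, x.1.unpair.2.unpair.1, x.1.unpair.2.unpair.2, x.2)) (by fun_prop)
  obtain ⟨e, he⟩ := univ_W0 h1
  have h2 : ∀ n a, Inf (Nat.pair e n) a ↔ ∀ b, ∃ t, R n a b t = true := by
    intro n a
    unfold Inf ix
    refine forall_congr' fun b => ?_
    have h3 := he (Nat.pair n (Nat.pair a b))
    simp only [Nat.unpair_pair] at h3 ⊢
    exact h3.symm
  obtain ⟨S, s1, s2, s3⟩ := hG.settling hD hP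
  constructor
  · have h3 : REIn X fun n : ℕ => ∃ v, Inf (Nat.pair e n) v :=
      REIn.ex (S := fun n v => Inf (Nat.pair e n) v) (hD.inf (by fun_prop) (by fun_prop)).1
    exact h3.of_eq fun n => exists_congr fun v => h2 n v
  · have h3 : REIn X fun n : ℕ => ∃ a, ∃ b, (S a b ∧ Nat.pair e n ≤ a) ∧
        ∀ v < b + 1, ¬ Inf (Nat.pair e n) v := by
      refine REIn.ex (S := fun (n : ℕ) a => ∃ b, (S a b ∧ Nat.pair e n ≤ a) ∧
        ∀ v < b + 1, ¬ Inf (Nat.pair e n) v) ?_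
      refine REIn.ex (S := fun (x : ℕ × ℕ) b => (S x.2 b ∧ Nat.pair e x.1 ≤ x.2) ∧
        ∀ v < b + 1, ¬ Inf (Nat.pair e x.1) v) ?_
      refine REIn.and (REIn.and ?_ (REIn.of_re (RE.le (by fun_prop) (by fun_prop)))) ?_
      · exact s1.comp (f := fun x : (ℕ × ℕ) × ℕ => (x.1.2, x.2)) (by fun_prop)
      · refine REIn.all_lt (S := fun (x : (ℕ × ℕ) × ℕ) v => ¬ Inf (Nat.pair e x.1.1) v) ?_
          (by fun_prop)
        exact (hD.inf (by fun_prop) (by fun_prop)).2
    refine h3.of_eq fun n => ?_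
    have h4 : (∃ v, Inf (Nat.pair e n) v) ↔ ∃ a, ∀ b, ∃ t, R n a b t = true :=
      exists_congr fun v => h2 n v
    rw [← h4]
    constructor
    · rintro ⟨a, b, ⟨h5, h6⟩, h7⟩
      exact not_inf_of (s2 a b h5) h6 fun v hv => h7 v (by omega)
    · intro h5
      obtain ⟨a, b, h6, h7⟩ := s3 (Nat.pair e n)
      exact ⟨a, b, ⟨h7, h6⟩, fun v _ hv => h5 ⟨v, hv⟩⟩

end Pool.Agent.T2h50.TJ
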