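import Pool.Agent.T2h50.TJ.Comp

/-! Solutions satisfy the hypotheses. -/

namespace Pool.Agent.T2h50.TJ

open Filter Pool.Agent.H645R2.HT Pool.Agent.TH747.HT Pool.Agent.TH747.HS
  Pool.Agent.Helper446 Pool.Agent.Helper446.RE Pool.Agent.N640.HU Pool.Agent.Helper446.Oracle

variable {X : Set ℕ}

/-- Pairs of sums of disjoint subsets of `X` in separated position. -/
def Adm (X : Set ℕ) (h h' : ℕ) : Prop :=
  (∃ g, ∃ g', (Cod X h g ∧ Cod X h' g') ∧ ∀ x ∈ L g, x ∉ L g') ∧ Sep h h'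

theorem re_Adm : REIn X fun x : ℕ × ℕ => Adm X x.1 x.2 := by
  refine REIn.and ?_ (REIn.of_re (RE.lt (f := fun x : ℕ × ℕ => mu x.1)
    (g := fun x : ℕ × ℕ => la x.2) (by fun_prop) (by fun_prop)))
  refine REIn.ex (S := fun (x : ℕ × ℕ) g => ∃ g', (Cod X x.1 g ∧ Cod X x.2 g') ∧
    ∀ y ∈ L g, y ∉ L g') ?_
  refine REIn.ex (S := fun (x : (ℕ × ℕ) × ℕ) g' => (Cod X x.1.1 x.2 ∧ Cod X x.1.2 g') ∧
    ∀ y ∈ L x.2, y ∉ L g') ?_
  refine REIn.and (REIn.and (re_cod (by fun_prop) (by fun_prop)) (re_cod (by fun_prop)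
    (by fun_prop))) (REIn.of_re ?_)
  refine RE.all_mem (p := fun (x : ((ℕ × ℕ) × ℕ) × ℕ) (y : ℕ) => y ∉ L x.2) ?_ (by fun_prop)
  exact RE.not_mem_list (f := fun x : (((ℕ × ℕ) × ℕ) × ℕ) × ℕ => x.2)
    (l := fun x : (((ℕ × ℕ) × ℕ) × ℕ) × ℕ => L x.1.2) (by fun_prop) (by fun_prop)

theorem cod_of {F : Finset ℕ} (h1 : F.Nonempty) (h2 : (F : Set ℕ) ⊆ X) :
    ∃ g, Cod X (∑ x ∈ F, x) g ∧ ∀ x, x ∈ L g ↔ x ∈ F := by
  obtain ⟨g, hg⟩ := exists_code F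
  have hG : (L g).toFinset = F := by
    ext x
    rw [List.mem_toFinset, hg]
  refine ⟨g, ⟨?_, fun x hx => h2 ((hg x).1 hx), by rw [sum_L, hG]⟩, hg⟩
  obtain ⟨x, hx⟩ := h1
  exact List.length_pos_of_mem ((hg x).2 hx)

/-- The solutions of Hindman's theorem. -/
theorem good3_FS (hX : X.Infinite) (h0 : 0 ∉ X)
    (hc : ∃ i, ∀ F : Finset ℕ, (F : Set ℕ) ⊆ X → F.Nonempty → c3 (∑ n ∈ F, n) = i) :
    ∃ U, Good3 U (Adm X) := by
  obtain ⟨U, hU, hUX⟩ := exists_idem hX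
    (fun x hx => Nat.pos_of_ne_zero fun h => h0 (h ▸ hx))
  obtain ⟨i, hi⟩ := hc
  have hpos : ∀ h ∈ FS X, 0 < h := fun h hh =>
    Nat.pos_of_ne_zero fun h1 => zero_notMem_FS h0 (h1 ▸ hh)
  have more : ∀ h g, Cod X h g → ∀ m, ∃ h'', m ≤ la h'' ∧ Adm X h h'' := by
    intro h g hg m
    obtain ⟨_, ⟨G, g1, g2, g3, rfl⟩, h4, h5⟩ :=
      ((hUX (L g).toFinset).and (hU.far (max m (mu h)))).exists
    obtain ⟨g', h6, h7⟩ := cod_of g1 g2
    refine ⟨∑ x ∈ G, x, by omega, ⟨g, g', ⟨hg, h6⟩, fun x hx hx' => ?_⟩,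
      by unfold Pool.Agent.H645R2.HT.Sep; omega⟩
    rw [Finset.disjoint_left] at g3
    exact g3 (List.mem_toFinset.2 hx) ((h7 x).1 hx')
  refine ⟨U, farU_idem hU, ?_, ?_, ?_, ?_⟩
  · rintro h h' ⟨⟨g, g', ⟨h1, h2⟩, -⟩, h3⟩
    exact ⟨hpos _ (mem_FS_of h1), hpos _ (mem_FS_of h2), h3⟩
  · rintro h h' ⟨⟨g, g', ⟨⟨h1, h2, h3⟩, ⟨h1', h2', h3'⟩⟩, h4⟩, -⟩
    rw [Sm_idem hU (by norm_num)]
    filter_upwards [hUX ((L g).toFinset ∪ (L g').toFinset)] with l hl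
    obtain ⟨G, g1, g2, g3, rfl⟩ := hl
    rw [Finset.disjoint_union_left] at g3
    have hd : Disjoint (L g).toFinset (L g').toFinset := by
      rw [Finset.disjoint_left]
      intro x hx hx'
      exact h4 x (List.mem_toFinset.1 hx) (List.mem_toFinset.1 hx')
    have hs1 : ((L g).toFinset : Set ℕ) ⊆ X := fun x hx => h2 x (by simpa using hx)
    have hs2 : ((L g').toFinset : Set ℕ) ⊆ X := fun x hx => h2' x (by simpa using hx)
    rw [← h3, ← h3', sum_L, sum_L, ← Finset.sum_union g3.2, ← Finset.sum_union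
      (Finset.disjoint_union_right.2 ⟨hd, g3.1⟩), hi _ ?_ ?_, hi _ ?_ ?_]
    · rw [Finset.coe_union]
      exact Set.union_subset hs2 g2
    · exact g1.mono Finset.subset_union_right
    · rw [Finset.coe_union, Finset.coe_union]
      exact Set.union_subset hs1 (Set.union_subset hs2 g2)
    · exact (g1.mono Finset.subset_union_right).mono Finset.subset_union_right
  · intro n
    obtain ⟨_, ⟨G, g1, g2, -, rfl⟩, h4, h5⟩ := ((hUX ∅).and (hU.far n)).exists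
    obtain ⟨g, h6, -⟩ := cod_of g1 g2
    obtain ⟨h', -, h7⟩ := more _ g h6 0
    exact ⟨_, h', by have := la_le_mu h4; omega, h7⟩
  · rintro h h' ⟨⟨g, g', ⟨h1, h2⟩, -⟩, -⟩ m
    exact more h g h1 m

/-- The solutions for sums of at most five elements. -/
theorem good3_five (h0 : 0 ∉ X) (hX : ∀ N, ∃ x ∈ X, 3 ^ N ∣ x)
    (hc : ∃ i, ∀ F : Finset ℕ, (F : Set ℕ) ⊆ X → F.Nonempty → F.card ≤ 5 →
      c3 (∑ n ∈ F, n) = i) :
    ∃ U, Good3 U (fun h h' => (h ∈ X ∧ h' ∈ X) ∧ Sep h h') := by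
  obtain ⟨V, hV, hVX⟩ := exists_farU h0 hX
  obtain ⟨i, hi⟩ := hc
  have hpos : ∀ h ∈ X, 0 < h := fun h hh => Nat.pos_of_ne_zero fun h1 => h0 (h1 ▸ hh)
  have more : ∀ h ∈ X, ∀ m, ∃ h'', m ≤ la h'' ∧ ((h ∈ X ∧ h'' ∈ X) ∧ Sep h h'') := by
    intro h hh m
    obtain ⟨x, h1, h2, h3⟩ := (hVX.and (hV (max m (mu h)))).exists
    exact ⟨x, by omega, ⟨hh, h1⟩, by unfold Pool.Agent.H645R2.HT.Sep; omega⟩
  refine ⟨V, hV, fun h h' hP => ⟨hpos _ hP.1.1, hpos _ hP.1.2, hP.2⟩, ?_, ?_,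
    fun h h' hP m => more h hP.1.1 m⟩
  · rintro h h' ⟨⟨h1, h2⟩, h3⟩
    have hne := sep_ne (hpos _ h1) h3
    refine Sm_mono ?_ (Sm_mem hV hVX (k := 3) (h + h'))
    rintro l ⟨G, g1, g2, g3, rfl⟩
    have n1 : h' ∉ G := fun hx => by have := g3 _ hx; omega
    have n2 : h ∉ insert h' G := by
      rw [Finset.mem_insert]
      rintro (hx | hx)
      · exact hne hx
      · have := g3 _ hx
        omega
    have e1 := Finset.sum_insert (f := fun x : ℕ => x) n1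
    have e2 := Finset.sum_insert (f := fun x : ℕ => x) n2
    rw [e1] at e2
    have s1 : ((insert h' G : Finset ℕ) : Set ℕ) ⊆ X := by
      rw [Finset.coe_insert]
      exact Set.insert_subset h2 g1
    have s2 : ((insert h (insert h' G) : Finset ℕ) : Set ℕ) ⊆ X := by
      rw [Finset.coe_insert]
      exact Set.insert_subset h1 s1
    have c1 := hi _ s1 (Finset.insert_nonempty _ _)
      (by rw [Finset.card_insert_of_notMem n1]; omega)
    have c2 := hi _ s2 (Finset.insert_nonempty _ _)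
      (by rw [Finset.card_insert_of_notMem n2, Finset.card_insert_of_notMem n1]; omega)
    rw [e1] at c1
    rw [e2] at c2
    rw [c1, c2]
  · intro n
    obtain ⟨x, h1, h2, h3⟩ := (hVX.and (hV n)).exists
    obtain ⟨h', -, h4⟩ := more x h1 0
    exact ⟨x, h', by have := la_le_mu h2; omega, h4⟩

theorem dj_of {Z : Set ℕ} {V : Ultrafilter ℕ}
    (hY : UE (fun X' => X' = X) fun _ (n : ℕ) => n ∈ Z) (hG : Good V Z) : DJ X := by
  intro R hR
  have h1 := uniform (𝓕 := fun X' => X' = X) (Yf := fun _ => Z) hY (fun _ _ => ⟨V, hG⟩) hR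
  exact ⟨h1.1.reIn rfl, h1.2.reIn rfl⟩

/-- The two-colouring and the three-colouring together. -/
def c6 (n : ℕ) : ℕ := (bif cf n then 3 else 0) + c3 n

theorem c6_lt (n : ℕ) : c6 n < 6 := by
  unfold c6
  have := c3_lt n
  cases cf n <;> simp <;> omega

theorem c6_cf {m n : ℕ} (h : c6 m = c6 n) : cf m = cf n := by
  unfold c6 at h
  have := c3_lt m
  have := c3_lt n
  revert h
  cases cf m <;> cases cf n <;> simp <;> omega

theorem c6_c3 {m n : ℕ} (h : c6 m = c6 n) : c3 m = c3 n := by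
  have h1 := c6_cf h
  unfold c6 at h
  rw [h1] at h
  omega

theorem c_c6 : Computable c6 := by
  unfold c6
  have h1 := c_c3
  have h2 := c_cf
  fun_prop

/-- `X` enumerates every `Σ⁰₃` set and its complement. -/
def TrJ (X : Set ℕ) : Prop := ∀ R : ℕ → ℕ → ℕ → ℕ → Bool,
  Computable (fun q : ℕ × ℕ × ℕ × ℕ => R q.1 q.2.1 q.2.2.1 q.2.2.2) →
    REIn X (fun n => ∃ a, ∀ b, ∃ t, R n a b t = true) ∧
      REIn X (fun n => ¬ ∃ a, ∀ b, ∃ t, R n a b t = true)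

theorem trJ_FS (hX : X.Infinite) (h0 : 0 ∉ X)
    (hc : ∃ i, ∀ F : Finset ℕ, (F : Set ℕ) ⊆ X → F.Nonempty → c6 (∑ n ∈ F, n) = i) :
    TrJ X := by
  obtain ⟨x, hx⟩ := hX.nonempty
  obtain ⟨i, hi⟩ := hc
  have hx1 : c6 x = i := by simpa using hi {x} (by simpa using hx) (by simp)
  obtain ⟨V, hV⟩ := good_FS hX h0 ⟨cf x, fun F h1 h2 => c6_cf ((hi F h1 h2).trans hx1.symm)⟩
  obtain ⟨U, hU⟩ := good3_FS hX h0 ⟨c3 x, fun F h1 h2 => c6_c3 ((hi F h1 h2).trans hx1.symm)⟩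
  have hD : DJ X := by
    refine dj_of (Z := FS X) ?_ hV
    refine (ue_FS (𝓕 := fun X' => X' = X)).of_eq ?_
    rintro X' rfl n
    rfl
  intro R hR
  exact hU.main hD re_Adm hR

theorem trJ_five (h0 : 0 ∉ X) (hX : ∀ N, ∃ x ∈ X, 3 ^ N ∣ x)
    (hc : ∃ i, ∀ F : Finset ℕ, (F : Set ℕ) ⊆ X → F.Nonempty → F.card ≤ 5 →
      c6 (∑ n ∈ F, n) = i) : TrJ X := by
  obtain ⟨x, hx, -⟩ := hX 0
  obtain ⟨i, hi⟩ := hc
  have hx1 : c6 x = i := by simpa using hi {x} (by simpa using hx) (by simp) (by simp)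
  obtain ⟨V, hV⟩ := good_Sk h0 hX
    ⟨cf x, fun F h1 h2 h3 => c6_cf ((hi F h1 h2 (by omega)).trans hx1.symm)⟩
  obtain ⟨U, hU⟩ := good3_five h0 hX
    ⟨c3 x, fun F h1 h2 h3 => c6_c3 ((hi F h1 h2 h3).trans hx1.symm)⟩
  have hD : DJ X := by
    refine dj_of (Z := Sk 2 X) ?_ hV
    refine (ue_Sk (𝓕 := fun X' => X' = X) 2).of_eq ?_
    rintro X' rfl n
    rfl
  intro R hR
  refine hU.main hD ?_ hR
  exact REIn.and (REIn.and (REIn.mem (by fun_prop)) (REIn.mem (by fun_prop)))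
    (REIn.of_re (RE.lt (f := fun x : ℕ × ℕ => mu x.1)
    (g := fun x : ℕ × ℕ => la x.2) (by fun_prop) (by fun_prop)))

end Pool.Agent.T2h50.TJ
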