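import Pool.Agent.T2h50.TJ.Seq

/-! The colouring, the typical values, and the relation between three sums. -/

namespace Pool.Agent.T2h50.TJ

open Filter Pool.Agent.H645R2.HT Pool.Agent.TH747.HS
  Pool.Agent.Helper446 Pool.Agent.Helper446.RE Pool.Agent.N640.HU
open Pool.Agent.TH747.HT hiding ncl_fin ncl_inf ncl_fin'

/-- The sum of the values of `F` at `r ++ v` for all nonempty suffixes `r` of `u`. -/
def Sf (F : List ℕ → ℕ) : List ℕ → List ℕ → ℕ
  | [], _ => 0
  | a :: u, v => F (a :: (u ++ v)) + Sf F u v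

theorem Sf_append (F : List ℕ → ℕ) (u v w : List ℕ) :
    Sf F (u ++ v) w = Sf F u (v ++ w) + Sf F v w := by
  induction u with
  | nil => simp [Sf]
  | cons a u ih =>
    rw [List.cons_append]
    simp only [Sf]
    rw [ih, List.append_assoc]
    omega

/-- The value at a list: the number of clusters of the word of the rest with respect to the
sequence given by the first two elements. -/
def val : List ℕ → ℕ
  | [] => 0
  | a :: r => cl [] (gl (mn (Y a (r.headD 0))) r)

/-- The colouring with three colours. -/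
def c3 (n : ℕ) : ℕ := Sf val (L n) [] % 3

theorem c3_lt (n : ℕ) : c3 n < 3 := Nat.mod_lt _ (by norm_num)

variable {U : Ultrafilter ℕ}

theorem Sm_const {k : ℕ} (f : ℕ → ℕ) {K : ℕ} (h : ∀ n, f n < K) :
    ∃ r < K, Sm U k (fun n => f n = r) := by
  by_contra hc
  push Not at hc
  have h1 : Sm U k (fun n => ∀ r ∈ Finset.range K, ¬ f n = r) :=
    Sm_finset (Finset.range K) fun r hr => Sm_not (hc r (Finset.mem_range.1 hr))
  obtain ⟨n, hn⟩ := Sm_exists h1
  exact hn (f n) (Finset.mem_range.2 (h n)) rfl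

/-- Typical sums of three elements contain the lower limit. -/
theorem lim_mem (hU : FarU U) {y : ℕ → ℕ} {b : ℕ} (h1 : ∀ N, ∃ t, N < t ∧ y t = b)
    {N : ℕ} (h2 : ∀ t, N < t → b ≤ y t) : Sm U 3 (fun n => b ∈ wd y n) := by
  obtain ⟨r, -, hr⟩ := exists_const (U := U) (fun n => cl [b] (wd y n) % 2) 2
    (Eventually.of_forall fun n => Nat.mod_lt _ (by omega))
  exact Sm_mono (fun n hn => hn.2.2 (by omega)) (cnt_fin hU h1 ⟨N, h2⟩ hr 2)

open Classical in
/-- The part of the typical value which is seen by `w`. -/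
noncomputable def kv (y : ℕ → ℕ) (w : List ℕ) (g : ℕ) : ℕ :=
  cl [] (gl (mn y) w) + (if g ∈ rv [] (gl (mn y) w) then 0 else 1) +
    (if ∀ N, ∃ t, N < t ∧ y t = g then 2 else 0)

theorem val_typ (hU : FarU U) {y : ℕ → ℕ} {w : List ℕ} (hw : w ≠ []) {g : ℕ}
    (hg : Gm y (w.getLastD 0) g) {r : ℕ} (hr : Sm U 3 (fun l => ncl y l % 3 = r)) :
    Sm U 3 (fun l => cl [] (gl (mn y) (w ++ L l)) % 3 = (kv y w g + r) % 3) := by
  classical
  obtain ⟨t0, ht0, hyt⟩ := hg.2
  -- the general shape
  have h0 : ∀ l, 0 < l → max t0 (w.getLastD 0) < la l → cl [] (gl (mn y) (w ++ L l)) =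
      cl [] (gl (mn y) w) + (if g ∈ rv [] (gl (mn y) w) then 0 else 1) +
        cl (g :: (rv [] (gl (mn y) w)).filter (fun z => decide (z < g))) (wd y l) ∧
      ∀ v ∈ wd y l, g ≤ v := by
    intro l hl hll
    have hmn : mn y (w.getLastD 0) ((L l).headD 0) = g := by
      refine le_antisymm ?_ ?_
      · rw [← hyt]; exact mn_le ht0 (by change t0 ≤ la l; omega)
      · obtain ⟨t', h5, _, h6⟩ := mn_mem (y := y) (a := w.getLastD 0) (b := la l) (by omega)
        change g ≤ mn y (w.getLastD 0) (la l)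
        rw [h6]
        exact hg.1 t' h5
    constructor
    · rw [gl_append _ _ hw _ (L_ne_nil hl), hmn, cl_append]
      simp only [cl]
      unfold wd
      omega
    · intro v hv
      obtain ⟨t, ht, rfl⟩ := mem_wd hv
      exact hg.1 t (by omega)
  by_cases hv : ∀ N, ∃ t, N < t ∧ y t = g
  · refine Sm_mono ?_ (Sm_and hr (Sm_and (Sm_far hU (by omega) (max t0 (w.getLastD 0)))
      (lim_mem hU hv hg.1)))
    rintro l ⟨h1, h2, h3⟩
    obtain ⟨h4, h5⟩ := h0 l h2.1 h2.2
    have h6 : cl (g :: (rv [] (gl (mn y) w)).filter (fun z => decide (z < g))) (wd y l) =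
        cl [g] (wd y l) := by
      refine cl_small (wd y l) [g] _ ((rv [] (gl (mn y) w)).filter (fun z => decide (z < g)))
        ?_ ?_
      · intro x
        simp
      · intro x hx z hz
        have := h5 z hz
        simp only [List.mem_filter, decide_eq_true_eq] at hx
        omega
    have h7 := cl_merge (wd y l) [] [g] g (by simp) (by simp) h5
    rw [if_pos h3] at h7
    unfold kv
    rw [if_pos hv, h4, h6]
    unfold ncl at h1
    omega
  · have hv' : ∃ N, ∀ t, N < t → y t ≠ g := by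
      by_contra hc
      push Not at hc
      exact hv fun N => by
        obtain ⟨t, h1, h2⟩ := hc N
        exact ⟨t, h1, h2⟩
    obtain ⟨N, hN⟩ := hv'
    refine Sm_mono ?_ (Sm_and hr (Sm_far hU (by omega) (max N (max t0 (w.getLastD 0)))))
    rintro l ⟨h1, h2⟩
    obtain ⟨h4, h5⟩ := h0 l h2.1 (by omega)
    have h6 : cl (g :: (rv [] (gl (mn y) w)).filter (fun z => decide (z < g))) (wd y l) =
        cl [] (wd y l) := by
      refine cl_small (wd y l) [] _ (g :: (rv [] (gl (mn y) w)).filter (fun z => decide (z < g)))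
        (by simp) ?_
      intro x hx z hz
      obtain ⟨t, ht, rfl⟩ := mem_wd hz
      have h7 := hg.1 t (by omega)
      have h8 := hN t (by omega)
      simp only [List.mem_cons, List.mem_filter, decide_eq_true_eq] at hx
      omega
    unfold kv
    rw [if_neg hv, h4, h6]
    unfold ncl at h1
    omega

/-- The least value of `y` after the end of `w`. -/
noncomputable def gm (y : ℕ → ℕ) (w : List ℕ) : ℕ := (exists_Gm y (w.getLastD 0)).choose

theorem gm_spec (y : ℕ → ℕ) (w : List ℕ) : Gm y (w.getLastD 0) (gm y w) :=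
  (exists_Gm y (w.getLastD 0)).choose_spec

/-- The typical number of clusters modulo `3`. -/
noncomputable def ty (U : Ultrafilter ℕ) (y : ℕ → ℕ) : ℕ :=
  (Sm_const (U := U) (k := 3) (fun n => ncl y n % 3) (K := 3)
    fun n => Nat.mod_lt _ (by norm_num)).choose

theorem ty_spec (U : Ultrafilter ℕ) (y : ℕ → ℕ) : Sm U 3 (fun l => ncl y l % 3 = ty U y) :=
  (Sm_const (U := U) (k := 3) (fun n => ncl y n % 3) (K := 3)
    fun n => Nat.mod_lt _ (by norm_num)).choose_spec.2

theorem ty_lt (U : Ultrafilter ℕ) (y : ℕ → ℕ) : ty U y < 3 :=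
  (Sm_const (U := U) (k := 3) (fun n => ncl y n % 3) (K := 3)
    fun n => Nat.mod_lt _ (by norm_num)).choose_spec.1

theorem ty_Sh (hU : FarU U) {a b : ℕ} (h : Sh a b) : ty U (Y a b) = 1 := by
  obtain ⟨l, h1, h2⟩ := Sm_exists (Sm_and (ncl_fin' hU (Y_near h) (K := 3) (by norm_num))
    (ty_spec U (Y a b)))
  omega

theorem ty_not_Sh (hU : FarU U) {a b : ℕ} (h : ¬ Sh a b) : ty U (Y a b) ≠ 1 := by
  obtain ⟨l, h1, h2⟩ := Sm_exists (Sm_and (ncl_inf hU (Y_far h) (K := 3) le_rfl)
    (ty_spec U (Y a b)))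
  omega

/-- The visible part of the value of a list. -/
noncomputable def kF : List ℕ → ℕ
  | [] => 0
  | a :: r => kv (Y a (r.headD 0)) r (gm (Y a (r.headD 0)) r)

/-- The typical part of the value of a list. -/
noncomputable def tF (U : Ultrafilter ℕ) : List ℕ → ℕ
  | [] => 0
  | a :: r => ty U (Y a (r.headD 0))

theorem headD_append {w v : List ℕ} (hw : w ≠ []) : (w ++ v).headD 0 = w.headD 0 := by
  cases w with
  | nil => exact absurd rfl hw
  | cons a w => rfl

theorem typ (hU : FarU U) (u : List ℕ) {w : List ℕ} (hw : w ≠ []) :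
    Sm U 3 (fun l => Sf val u (w ++ L l) % 3 = (Sf kF u w + Sf (tF U) u w) % 3) := by
  induction u with
  | nil => exact Sm_all fun l => by simp [Sf]
  | cons a u ih =>
    have hw' : u ++ w ≠ [] := by simp [hw]
    have h1 := val_typ hU hw' (gm_spec (Y a ((u ++ w).headD 0)) (u ++ w))
      (ty_spec U (Y a ((u ++ w).headD 0)))
    refine Sm_mono ?_ (Sm_and ih h1)
    rintro l ⟨h2, h3⟩
    simp only [Sf, val, kF, tF]
    rw [← List.append_assoc, headD_append hw']
    omega

/-- The typical part depends only on the last gap. -/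
theorem tF_diff (u : List ℕ) (hu : u ≠ []) (w w' : List ℕ) :
    Sf (tF U) u w + ty U (Y (u.getLastD 0) (w'.headD 0)) =
      Sf (tF U) u w' + ty U (Y (u.getLastD 0) (w.headD 0)) := by
  induction u with
  | nil => exact absurd rfl hu
  | cons a u ih =>
    cases u with
    | nil => simp [Sf, tF]; omega
    | cons b u =>
      have h := ih (by simp)
      have e : (a :: b :: u).getLastD 0 = (b :: u).getLastD 0 := by
        simp [List.getLastD_eq_getLast?, List.getLast?_cons_cons]
      rw [e]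
      simp only [Sf, tF, List.cons_append, List.headD_cons] at h ⊢
      omega

/-- The visible part for two sums. -/
noncomputable def K (h h' : ℕ) : ℕ := Sf kF (L h) (L h')

/-- The properties of the pairs of sums of a solution which are used. -/
structure Good3 (U : Ultrafilter ℕ) (P : ℕ → ℕ → Prop) : Prop where
  far : FarU U
  pos : ∀ h h', P h h' → 0 < h ∧ 0 < h' ∧ Sep h h'
  hom : ∀ h h', P h h' → Sm U 3 (fun l => c3 (h + (h' + l)) = c3 (h' + l))
  rich : ∀ n, ∃ h h', n ≤ mu h ∧ P h h'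
  more : ∀ h h', P h h' → ∀ m, ∃ h'', m ≤ la h'' ∧ P h h''

variable {P : ℕ → ℕ → Prop}

theorem Good3.eq (hG : Good3 U P) {h h' : ℕ} (hP : P h h') :
    (K h h' + Sf (tF U) (L h) (L h')) % 3 = 0 := by
  obtain ⟨h1, h2, h3⟩ := hG.pos h h' hP
  obtain ⟨l, h4, h5, h6⟩ := Sm_exists (Sm_and (hG.hom h h' hP) (Sm_and
    (Sm_far hG.far (by norm_num) (mu h')) (typ hG.far (L h) (L_ne_nil h2))))
  have s1 : Sep h' l := h5.2
  have s2 : Sep h (h' + l) := sep_add_right h2 h3 s1
  unfold c3 at h4
  rw [L_add s2, L_add s1, Sf_append, List.append_nil] at h4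
  unfold K
  omega

theorem Good3.diff (hG : Good3 U P) {h h' h'' : ℕ} (hP : P h h') (hP' : P h h'') :
    (K h h' + ty U (Y (mu h) (la h'))) % 3 = (K h h'' + ty U (Y (mu h) (la h''))) % 3 := by
  have h1 := hG.eq hP
  have h2 := hG.eq hP'
  have h3 := tF_diff (U := U) (L h) (L_ne_nil (hG.pos h h' hP).1) (L h') (L h'')
  change _ + ty U (Y (mu h) (la h'')) = _ + ty U (Y (mu h) (la h')) at h3
  omega

/-- If the visible parts differ, the sequence is settled. -/
theorem Good3.settled (hG : Good3 U P) {h h' h'' : ℕ} (hP : P h h') (hP' : P h h'')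
    (hle : la h' ≤ la h'') (hK : K h h' % 3 ≠ K h h'' % 3) : ¬ Sh (mu h) (la h'') := by
  intro hS
  have h1 := ty_Sh hG.far hS
  have h2 := ty_Sh hG.far (hS.anti hle)
  have h3 := hG.diff hP hP'
  omega

/-- If all visible parts agree, the sequence is settled at once. -/
theorem Good3.settled' (hG : Good3 U P) {h h' : ℕ} (hP : P h h')
    (hK : ∀ h'', P h h'' → K h h'' % 3 = K h h' % 3) : ¬ Sh (mu h) (la h') := by
  intro hS
  obtain ⟨B, hB⟩ := exists_not_Sh (mu h)
  obtain ⟨h'', h1, h2⟩ := hG.more h h' hP B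
  have h3 := ty_not_Sh hG.far (hB _ h1)
  have h4 := ty_Sh hG.far hS
  have h5 := hG.diff hP h2
  have h6 := hK h'' h2
  have h7 := ty_lt U (Y (mu h) (la h''))
  omega

end Pool.Agent.T2h50.TJ
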