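import Pool.Agent.N640.HU.Main

/-! The double sequences `Y a b`: they tend to infinity if and only if `b` bounds the witnesses of
all true `Σ⁰₃` facts `z ≤ a`. -/

namespace Pool.Agent.T2h50.TJ

open Filter Pool.Agent.H645R2.HT Pool.Agent.TH747.HT Pool.Agent.TH747.HS
  Pool.Agent.Helper446 Pool.Agent.Helper446.RE

/-- The `Π⁰₂` fact number `v` of `z`: all instances get enumerated. -/
def Inf (z v : ℕ) : Prop := ∀ c, ∃ s, W0 s (ix z v c) = true

/-- Some true fact `z ≤ a` has only witnesses above `b`. -/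
def Sh (a b : ℕ) : Prop := ∃ z, z ≤ a ∧ (∃ v, Inf z v) ∧ ∀ v, v ≤ b → ¬ Inf z v

theorem Sh.anti {a b b' : ℕ} (h : b ≤ b') (h' : Sh a b') : Sh a b := by
  obtain ⟨z, h1, h2, h3⟩ := h'
  exact ⟨z, h1, h2, fun v hv => h3 v (by omega)⟩

theorem exists_not_Sh (a : ℕ) : ∃ B, ∀ b, B ≤ b → ¬ Sh a b := by
  classical
  have h : ∀ a', ∃ B, ∀ z < a', (∃ v, Inf z v) → ∃ v ≤ B, Inf z v := by
    intro a'
    induction a' with
    | zero => exact ⟨0, fun z hz => absurd hz (Nat.not_lt_zero _)⟩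
    | succ a' ih =>
      obtain ⟨B, hB⟩ := ih
      by_cases h : ∃ v, Inf a' v
      · obtain ⟨v, hv⟩ := h
        refine ⟨max B v, fun z hz hz' => ?_⟩
        rcases Nat.lt_succ_iff_lt_or_eq.1 hz with h1 | h1
        · obtain ⟨w, hw, hw'⟩ := hB z h1 hz'
          exact ⟨w, by omega, hw'⟩
        · subst h1
          exact ⟨v, by omega, hv⟩
      · refine ⟨B, fun z hz hz' => ?_⟩
        rcases Nat.lt_succ_iff_lt_or_eq.1 hz with h1 | h1
        · exact hB z h1 hz'
        · subst h1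
          exact absurd hz' h
  obtain ⟨B, hB⟩ := h (a + 1)
  refine ⟨B, fun b hb => ?_⟩
  rintro ⟨z, h1, h2, h3⟩
  obtain ⟨v, hv, hv'⟩ := hB z (by omega) h2
  exact h3 v (by omega) hv'

/-- If `b` bounds the witnesses of the true facts `z ≤ a`, then it can be used to refute. -/
theorem not_inf_of {a b z : ℕ} (h : ¬ Sh a b) (hz : z ≤ a) (h1 : ∀ v, v ≤ b → ¬ Inf z v) :
    ¬ ∃ v, Inf z v := fun h2 => h ⟨z, hz, h2, h1⟩

theorem yy_low {z v : ℕ} (h : Inf z v) (N : ℕ) : ∃ t, N < t ∧ yy W0 z t ≤ v := by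
  have h1 : ¬ ∃ c, ∀ s, W0 s (ix z v c) = false := by
    rintro ⟨c, hc⟩
    obtain ⟨s, hs⟩ := h c
    rw [hc s] at hs
    cases hs
  obtain ⟨t, ht, ht'⟩ := cc_go mon_W0 h1 (max N v)
  refine ⟨t, by omega, ?_⟩
  have h2 := lst_lt_of (q := fun b => decide (cc W0 z b t < cc W0 z b (t + 1))) (n := t) (i := v)
    (by omega) (by simpa using ht')
  exact h2.1

theorem yy_high {z b : ℕ} (h : ∀ v, v ≤ b → ¬ Inf z v) : ∃ N, ∀ t, N < t → b < yy W0 z t := by
  have h0 : ∀ v, v ≤ b → ∃ c, ∀ s, W0 s (ix z v c) = false := by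
    intro v hv
    have := h v hv
    unfold Inf at this
    push Not at this
    obtain ⟨c, hc⟩ := this
    exact ⟨c, fun s => by simpa using hc s⟩
  have h1 : ∀ B, B ≤ b + 1 →
      ∃ N, ∀ v < B, ∀ t, N < t → cc W0 z v t = cc W0 z v (t + 1) := by
    intro B
    induction B with
    | zero => exact fun _ => ⟨0, fun b hb => absurd hb (Nat.not_lt_zero _)⟩
    | succ B ih =>
      intro hB
      obtain ⟨N, hN⟩ := ih (by omega)
      obtain ⟨c, N', hN'⟩ := cc_stop mon_W0 (h0 B (by omega))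
      refine ⟨max N N', fun v hv t ht => ?_⟩
      rcases Nat.lt_succ_iff_lt_or_eq.1 hv with h3 | h3
      · exact hN v h3 t (by omega)
      · rw [h3, hN' t (by omega), hN' (t + 1) (by omega)]
  obtain ⟨N, hN⟩ := h1 (b + 1) le_rfl
  refine ⟨max N b, fun t ht => ?_⟩
  unfold yy
  rcases lst_spec (fun b => decide (cc W0 z b t < cc W0 z b (t + 1))) t with ⟨h1, h2, _⟩ | ⟨h1, _⟩
  · by_contra hc
    rw [decide_eq_true_eq, ← hN _ (by omega) t (by omega)] at h2
    exact lt_irrefl _ h2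
  · omega

/-- One more than the last time before `t` at which the value was at most `b`. -/
def last (z b t : ℕ) : ℕ := t - lst (fun i => decide (yy W0 z (t - 1 - i) < b + 1)) t

theorem last_ge {z b t u : ℕ} (hu : u < t) (h : yy W0 z u ≤ b) : u < last z b t := by
  unfold last
  have h1 := lst_lt_of (q := fun i => decide (yy W0 z (t - 1 - i) < b + 1)) (n := t)
    (i := t - 1 - u) (by omega) (by
      have h2 : t - 1 - (t - 1 - u) = u := by omega
      simp only [h2, decide_eq_true_eq]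
      omega)
  omega

theorem last_le {z b t N : ℕ} (h : ∀ u, N < u → b < yy W0 z u) : last z b t ≤ N + 1 := by
  unfold last
  rcases lst_spec (fun i => decide (yy W0 z (t - 1 - i) < b + 1)) t with ⟨h1, h2, _⟩ | ⟨h1, _⟩
  · rw [decide_eq_true_eq] at h2
    by_contra hc
    have := h (t - 1 - lst (fun i => decide (yy W0 z (t - 1 - i) < b + 1)) t) (by omega)
    omega
  · omega

/-- The sequences. -/
def Y (a b t : ℕ) : ℕ := lst (fun v => exB (fun z => decide (b < yy W0 z t) &&
  decide (yy W0 z t + last z b t < v + 1)) (a + 1)) t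

theorem lst_le {q : ℕ → Bool} {n : ℕ} : lst q n ≤ n := by
  rcases lst_spec q n with ⟨h1, _, _⟩ | ⟨h1, _⟩ <;> omega

theorem Y_le {a b t z : ℕ} (hz : z ≤ a) (h : b < yy W0 z t) :
    Y a b t ≤ yy W0 z t + last z b t := by
  unfold Y
  by_cases h1 : yy W0 z t + last z b t < t
  · refine (lst_lt_of h1 ?_).1
    rw [exB_iff]
    refine ⟨z, by omega, ?_⟩
    rw [Bool.and_eq_true, decide_eq_true_eq, decide_eq_true_eq]
    exact ⟨h, by omega⟩
  · exact le_trans lst_le (by omega)

theorem le_Y {a b t B : ℕ} (hB : B ≤ t)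
    (h : ∀ z, z ≤ a → b < yy W0 z t → B ≤ yy W0 z t + last z b t) : B ≤ Y a b t := by
  unfold Y
  rcases lst_spec (fun v => exB (fun z => decide (b < yy W0 z t) &&
    decide (yy W0 z t + last z b t < v + 1)) (a + 1)) t with ⟨h1, h2, _⟩ | ⟨h1, _⟩
  · rw [exB_iff] at h2
    obtain ⟨z, hz, hz'⟩ := h2
    rw [Bool.and_eq_true, decide_eq_true_eq, decide_eq_true_eq] at hz'
    have := h z (by omega) hz'.1
    omega
  · omega

theorem Y_far {a b : ℕ} (h : ¬ Sh a b) : ∀ B, ∃ N, ∀ t, N < t → B ≤ Y a b t := by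
  intro B
  have h1 : ∀ a', a' ≤ a + 1 → ∃ N, ∀ z < a', ∀ t, N < t → B ≤ yy W0 z t + last z b t := by
    intro a'
    induction a' with
    | zero => exact fun _ => ⟨0, fun z hz => absurd hz (Nat.not_lt_zero _)⟩
    | succ a' ih =>
      intro ha'
      obtain ⟨N, hN⟩ := ih (by omega)
      have h2 : ∃ N', ∀ t, N' < t → B ≤ yy W0 a' t + last a' b t := by
        by_cases h3 : ∃ v, v ≤ b ∧ Inf a' v
        · obtain ⟨v, hv, hv'⟩ := h3
          obtain ⟨u, hu, hu'⟩ := yy_low hv' B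
          refine ⟨u, fun t ht => ?_⟩
          have := last_ge (z := a') (b := b) ht (le_trans hu' hv)
          omega
        · have h4 : ∀ v, v ≤ b → ¬ Inf a' v := fun v hv hv' => h3 ⟨v, hv, hv'⟩
          have h5 := not_inf_of h (by omega : a' ≤ a) h4
          obtain ⟨N', hN'⟩ := yy_high (z := a') (b := B) fun v _ hv => h5 ⟨v, hv⟩
          exact ⟨N', fun t ht => by have := hN' t ht; omega⟩
      obtain ⟨N', hN'⟩ := h2
      refine ⟨max N N', fun z hz t ht => ?_⟩
      rcases Nat.lt_succ_iff_lt_or_eq.1 hz with h3 | h3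
      · exact hN z h3 t (by omega)
      · subst h3
        exact hN' t (by omega)
  obtain ⟨N, hN⟩ := h1 (a + 1) le_rfl
  exact ⟨max N B, fun t ht => le_Y (by omega) fun z hz _ => hN z (by omega) t (by omega)⟩

theorem Y_near {a b : ℕ} (h : Sh a b) : ¬ ∀ B, ∃ N, ∀ t, N < t → B ≤ Y a b t := by
  obtain ⟨z, h1, ⟨v, h2⟩, h3⟩ := h
  intro hc
  obtain ⟨N, hN⟩ := yy_high h3
  obtain ⟨M, hM⟩ := hc (v + N + 2)
  obtain ⟨t, ht, ht'⟩ := yy_low h2 (max N M)
  have h4 := hM t (by omega)
  have h5 := Y_le (b := b) h1 (hN t (by omega))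
  have h6 := last_le (t := t) hN
  omega

section comp

variable {α : Type*} [Primcodable α]

theorem c_last {z b t : α → ℕ} (hz : Computable z) (hb : Computable b) (ht : Computable t) :
    Computable fun x => last (z x) (b x) (t x) := by
  unfold last
  have h1 : Computable fun x => lst (fun i => decide (yy W0 (z x) (t x - 1 - i) < b x + 1))
      (t x) := by
    refine c_lst (q := fun (x : α) i => decide (yy W0 (z x) (t x - 1 - i) < b x + 1)) ?_ ht
    exact c_dlt (c_yy c_W0 (by fun_prop) (by fun_prop)) (by fun_prop)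
  fun_prop

theorem c_Y {a b t : α → ℕ} (ha : Computable a) (hb : Computable b) (ht : Computable t) :
    Computable fun x => Y (a x) (b x) (t x) := by
  unfold Y
  refine c_lst (q := fun (x : α) v => exB (fun z => decide (b x < yy W0 z (t x)) &&
    decide (yy W0 z (t x) + last z (b x) (t x) < v + 1)) (a x + 1)) ?_ ht
  refine computable_exB (α := α × ℕ) (q := fun x z => decide (b x.1 < yy W0 z (t x.1)) &&
    decide (yy W0 z (t x.1) + last z (b x.1) (t x.1) < x.2 + 1)) ?_ (by fun_prop)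
  unfold Computable₂
  have h1 : Computable fun y : (α × ℕ) × ℕ => yy W0 y.2 (t y.1.1) :=
    c_yy c_W0 (by fun_prop) (by fun_prop)
  have h2 : Computable fun y : (α × ℕ) × ℕ => last y.2 (b y.1.1) (t y.1.1) :=
    c_last (by fun_prop) (by fun_prop) (by fun_prop)
  exact cand (c_dlt (by fun_prop) (by fun_prop)) (c_dlt (by fun_prop) (by fun_prop))

end comp

end Pool.Agent.T2h50.TJ
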